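import Pool.Agent.TH482.HT.W17

/-!
# `iacr = 0` does not imply embeddability on the orientable surface of genus 4

See `Pool/Agent/TH482/HT/Defs.lean` for the definitions of a drawing on an oriented surface.
The graph is a 17 x 15 grid with five further vertices `a, b, c, d, e`; the top end of column `i`
is joined to the `i`-th letter of the word `cbecdadbdeacbacba`.
-/

set_option autoImplicit false

namespace Pool.Agent.Results.MP_300f0e_co.IacrGenusFour

open TH482.HT

/-- There is a connected graph `G` that has a drawing on the closed orientable surface of genus `4`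
in which any two independent edges `e`, `f` have as many crossings where `e` crosses `f` from the
left as crossings where `e` crosses `f` from the right, while `G` has no embedding in this
surface. -/
theorem result : ∃ (V : Type) (_ : Fintype V) (G : SimpleGraph V), G.Connected ∧
    (∃ 𝒟 : Drawing G, 𝒟.OnSurface 4 ∧ 𝒟.IndepAlgZero) ∧
    ¬ ∃ ℰ : Drawing G, ℰ.OnSurface 4 ∧ ℰ.IsEmbedding := by
  refine ⟨Vt 16 14 5, inferInstance, gridGraph 14 W17.w,
    gridGraph_connected W17.w W17.bcol W17.D.hb, ⟨tabDrawing W17.good, ?_, ?_⟩, ?_⟩
  · have h := tab_euler W17.good (by decide) (by decide)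
    have h2 : ((W17.t.Vn : ℕ) : ℤ) - (W17.t.En : ℤ) + (W17.t.Fn : ℤ) = 2 - 2 * ((4 : ℕ) : ℤ) := by
      decide
    rw [h2] at h
    exact h
  · exact tab_algZero W17.good W17.chk
  · rintro ⟨ℰ, h1, h2⟩
    exact no_embedding W17.D (M := 14) (g := 4) (by norm_num) (by norm_num) W17.el W17.final ℰ h2
      h1

end Pool.Agent.Results.MP_300f0e_co.IacrGenusFour
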